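import Pool.Agent.Q175.HW.Vb

/-!
The group of Hamiltonian homeomorphisms: subgroups of index less than the continuum.
-/

set_option autoImplicit false

open Set Filter Topology MeasureTheory Function
open scoped Cardinal

namespace Pool.Agent.Q175.HW

open Pool.Agent.Q175.HU
open Pool.Agent.Y453.HB

variable {n : ℕ}

theorem mk_le_of_polish (X : Type) [TopologicalSpace X] [PolishSpace X] : #X ≤ 𝔠 := by
  borelize X
  obtain ⟨f, -, hf⟩ := MeasurableSpace.measurable_injection_nat_bool_of_countablySeparated X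
  refine (Cardinal.mk_le_of_injective hf).trans ?_
  simp

theorem mk_ham_le (S : Subgroup (E n ≃ₜ E n)) : #S ≤ 𝔠 := by
  refine le_trans ?_ (mk_le_of_polish (CE n × CE n))
  refine Cardinal.mk_le_of_injective (f := fun u : S => pr u.1) fun u v h => ?_
  exact Subtype.ext (pr_inj h)

theorem index_eq {S : Subgroup (E n ≃ₜ E n)} (P : Subgroup S) {h : (ℕ → Bool) → S}
    (hh : ∀ b b', b ≠ b' → (h b)⁻¹ * h b' ∉ P) : #(S ⧸ P) = 𝔠 := by
  apply le_antisymm
  · exact (Cardinal.mk_quotient_le).trans (mk_ham_le S)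
  · have h1 : #(ℕ → Bool) = 𝔠 := by simp
    rw [← h1]
    refine Cardinal.mk_le_of_injective (f := fun b => (QuotientGroup.mk (h b) : S ⧸ P))
      fun b b' hb => ?_
    by_contra hne
    exact hh b b' hne (QuotientGroup.eq.1 hb)

/-- analytic sets of homeomorphisms with a common compact support -/
def AN (S : Subgroup (E n ≃ₜ E n)) (T : Set S) : Prop :=
  (∃ K : Set (E n), IsCompact K ∧ K ⊆ {p : E n | Q p < 1} ∧ ∀ φ ∈ T,
    (∀ x, x ∉ K → (φ : E n ≃ₜ E n) x = x) ∧
    ∃ u : ℕ → (E n ≃ₜ E n), (∀ k x, x ∉ K → u k x = x) ∧ (∀ k, IsHam (u k)) ∧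
      TendstoUniformly (fun k x => u k x) (fun x => (φ : E n ≃ₜ E n) x) Filter.atTop) ∧
  AnalyticSet {f : C(E n, E n) | ∃ φ ∈ T, ∀ x, f x = (φ : E n ≃ₜ E n) x}

theorem AN_cl {T : Set (HamBar n)} (h : AN (HamBar n) T) :
    Cl (fun i : KI n => LG i.1) tt T := by
  obtain ⟨⟨K, hK, hK1, hT⟩, hA⟩ := h
  refine ⟨⟨K, hK, hK1⟩, (fun p : LG K => p.1.1) ⁻¹'
    {f : C(E n, E n) | ∃ φ ∈ T, ∀ x, f x = (φ : E n ≃ₜ E n) x},
    hA.preimage (continuous_fst.comp continuous_subtype_val), ?_⟩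
  ext φ
  constructor
  · intro hφ
    obtain ⟨h1, u, h2, h3, h4⟩ := hT φ hφ
    refine ⟨⟨pr φ.1, of_hamBar hK h1 h2 h3 h4⟩, ⟨φ, hφ, fun x => rfl⟩, ?_⟩
    exact Subtype.ext (pr_inj rfl)
  · rintro ⟨p, ⟨φ', hφ', h⟩, rfl⟩
    have h1 : tt ⟨K, hK, hK1⟩ p = φ' := Subtype.ext (Homeomorph.ext h)
    rw [h1]
    exact hφ'

/-- the alternative -/
def Alt (S : Subgroup (E n ≃ₜ E n)) (P : Subgroup S) : Prop := P = ⊤ ∨ #(S ⧸ P) = 𝔠

theorem Alt_of {S : Subgroup (E n ≃ₜ E n)} {P : Subgroup S}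
    (h : P = ⊤ ∨ ∃ h : (ℕ → Bool) → S, ∀ b b', b ≠ b' → (h b)⁻¹ * h b' ∉ P) : Alt S P := by
  rcases h with h | ⟨h, hh⟩
  · exact Or.inl h
  · exact Or.inr (index_eq P hh)

/-- the theorem for a subgroup -/
def ST (S : Subgroup (E n ≃ₜ E n)) : Prop :=
  (∀ T : ℕ → Set S, (∀ m, AN S (T m)) → Alt S (Subgroup.closure (⋃ m, T m))) ∧
  (∀ W : Set (List (S ⊕ (ℕ × Bool))), W.Countable → Alt S (verbal W)) ∧
  (∀ t : ℝ, 0 < t → t < 1 → Alt S (Subgroup.normalClosure (IB S t))) ∧
  (∀ C : Set S, C.Countable → Alt S (Subgroup.normalClosure C)) ∧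
  Alt S (commutator S) ∧
  (IsSimpleGroup S ↔ ∀ N : Subgroup S, N.Normal → N ≠ ⊥ → #(S ⧸ N) < 𝔠)

theorem comm_verbal (G : Type) [Group G] : commutator G =
    verbal ({[Sum.inr (0, true), Sum.inr (1, true), Sum.inr (0, false), Sum.inr (1, false)]} :
      Set (List (G ⊕ (ℕ × Bool)))) := by
  rw [commutator_eq_closure, verbal]
  congr 1
  ext y
  constructor
  · rintro ⟨a, b, rfl⟩
    refine ⟨_, rfl, fun k => if k = 0 then a else b, ?_⟩
    simp [val, commutatorElement_def, mul_assoc]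
  · rintro ⟨w, hw, x, rfl⟩
    rw [Set.mem_singleton_iff] at hw
    subst hw
    refine ⟨x 0, x 1, ?_⟩
    simp [val, commutatorElement_def, mul_assoc]

theorem nc_verbal (G : Type) [Group G] (C : Set G) : Subgroup.normalClosure C =
    verbal ((fun g => [Sum.inr (0, true), Sum.inl g, Sum.inr (0, false)]) '' C :
      Set (List (G ⊕ (ℕ × Bool)))) := by
  rw [Subgroup.normalClosure, verbal]
  congr 1
  ext y
  rw [Group.mem_conjugatesOfSet_iff]
  constructor
  · rintro ⟨a, ha, h⟩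
    obtain ⟨g, rfl⟩ := isConj_iff.1 h
    refine ⟨_, ⟨a, ha, rfl⟩, fun _ => g, ?_⟩
    simp [val, mul_assoc]
  · rintro ⟨w, ⟨a, ha, rfl⟩, x, rfl⟩
    refine ⟨a, ha, isConj_iff.2 ⟨x 0, ?_⟩⟩
    simp [val, mul_assoc]

theorem st (hn : 0 < n) : ST (HamBar n) := by
  have hv : ∀ W : Set (List (HamBar n ⊕ (ℕ × Bool))), W.Countable → Alt (HamBar n) (verbal W) :=
    fun W hW => Alt_of (verbal_dicho W hW)
  have hc : ∀ C : Set (HamBar n), C.Countable → Alt (HamBar n) (Subgroup.normalClosure C) := by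
    intro C hC
    rw [nc_verbal]
    exact hv _ (hC.image _)
  refine ⟨fun T hT => Alt_of (gen_dicho T fun m => AN_cl (hT m)), hv, fun t ht ht1 => ?_, hc, ?_, ?_⟩
  · rw [IB_eq ht ht1.le]
    exact Alt_of (frag_dicho ht ht1.le)
  · rw [comm_verbal]
    exact hv _ (Set.countable_singleton _)
  · constructor
    · intro hs N hN hN1
      have := hs.eq_bot_or_eq_top_of_normal N hN
      have h1 : N = ⊤ := this.resolve_left hN1
      rw [h1]
      have : Subsingleton (HamBar n ⧸ (⊤ : Subgroup (HamBar n))) :=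
        QuotientGroup.subsingleton_quotient_top
      exact lt_of_le_of_lt (Cardinal.le_one_iff_subsingleton.2 this)
        (lt_of_lt_of_le Cardinal.one_lt_aleph0 Cardinal.aleph0_le_continuum)
    · intro h
      obtain ⟨g, hg⟩ := nontriv hn
      have : Nontrivial (HamBar n) := ⟨g, 1, hg⟩
      refine ⟨fun N hN => ?_⟩
      by_cases hb : N = ⊥
      · exact Or.inl hb
      · right
        obtain ⟨g, hg1⟩ := (Subgroup.ne_bot_iff_exists_ne_one).1 hb
        have hle : Subgroup.normalClosure {(g : HamBar n)} ≤ N :=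
          Subgroup.normalClosure_le_normal (Set.singleton_subset_iff.2 g.2)
        rcases hc {(g : HamBar n)} (Set.countable_singleton _) with h1 | h1
        · exact top_le_iff.1 (h1 ▸ hle)
        · exfalso
          refine absurd h1 (h _ Subgroup.normalClosure_normal fun h2 => hg1 ?_).ne
          have h3 : (g : HamBar n) ∈ Subgroup.normalClosure {(g : HamBar n)} :=
            Subgroup.subset_normalClosure (Set.mem_singleton _)
          rw [h2, Subgroup.mem_bot] at h3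
          exact Subtype.ext h3

end Pool.Agent.Q175.HW
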