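import Pool.Agent.Q175.HU.Mn4
import Pool.Agent.H565R2.FO2.Myc

/-!
Subgroups generated by countably many analytic sets: the index is one or the continuum.
-/

set_option autoImplicit false

open Set Filter Topology MeasureTheory Function
open scoped Pointwise

namespace Pool.Agent.Q175.HW

open Pool.Agent.Q175.HU

/-- a meagre set has continuum many disjoint translates, for a subgroup -/
theorem myc {L : Type} [Group L] [TopologicalSpace L] [IsTopologicalGroup L] [PolishSpace L]
    {M : Set L} (hM : IsMeagre M) :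
    ∃ h : (ℕ → Bool) → L, ∀ b b', b ≠ b' → (h b)⁻¹ * h b' ∉ M := by
  obtain ⟨S, hSo, hSd, hSc, hSM⟩ := mem_residual_iff.1 hM
  obtain ⟨W, hW⟩ := (hSc.insert univ).exists_eq_range ⟨univ, mem_insert _ _⟩
  have hWS : ∀ n, W n = univ ∨ W n ∈ S := by
    intro n
    have : W n ∈ insert univ S := by rw [hW]; exact ⟨n, rfl⟩
    exact this
  have hWo : ∀ n, IsOpen (W n) := fun n => by
    rcases hWS n with h | h
    · rw [h]; exact isOpen_univ
    · exact hSo _ h
  have hWd : ∀ n, Dense (W n) := fun n => by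
    rcases hWS n with h | h
    · rw [h]; exact dense_univ
    · exact hSd _ h
  have hf : IsOpenMap fun p : L × L => p.1⁻¹ * p.2 :=
    isOpenMap_snd.comp (Homeomorph.shearMulRight L).symm.isOpenMap
  have hfc : Continuous fun p : L × L => p.1⁻¹ * p.2 := by fun_prop
  obtain ⟨h, -, hh⟩ := Pool.Agent.H565R2.FO2.mycielski' (G := L)
    (fun n => (fun p : L × L => p.1⁻¹ * p.2) ⁻¹' (W n)) (fun n => (hWo n).preimage hfc)
    (fun n => (hWd n).preimage hf)
  refine ⟨h, fun b b' hbb hRb => ?_⟩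
  refine hSM (a := (h b)⁻¹ * h b') (fun u hu => ?_) hRb
  have : u ∈ range W := by rw [← hW]; exact mem_insert_of_mem _ hu
  obtain ⟨n, rfl⟩ := this
  exact hh b b' hbb n

section

variable {G : Type} [Group G] {ι : Type} [SemilatticeSup ι] {L : ι → Type} [∀ i, Group (L i)]
  [∀ i, TopologicalSpace (L i)] [∀ i, IsTopologicalGroup (L i)] [∀ i, PolishSpace (L i)]
  {t : ∀ i, L i →* G} (c : ∀ i j, i ≤ j → L i →* L j)

/-- a subgroup generated by countably many analytic sets is open or has continuum many cosets -/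
theorem dicho [Nonempty ι] (ht : ∀ i j h x, t j (c i j h x) = t i x)
    (hc : ∀ i j h, Continuous (c i j h)) (hinj : ∀ i, Injective (t i)) (V : ℕ → Set G)
    (hV : ∀ m, Cl L t (V m)) (P : Subgroup G)
    (hP : ∀ x, x ∈ P ↔ ∃ l : List G, (∀ y ∈ l, ∃ m, y ∈ V m ∨ y⁻¹ ∈ V m) ∧ l.prod = x) :
    (∀ i, ∀ᶠ x in 𝓝 (1 : L i), t i x ∈ P) ∨
      ∃ h : (ℕ → Bool) → G, ∀ b b', b ≠ b' → (h b)⁻¹ * h b' ∉ P := by
  have hA : ∀ (i : ι) (l : List (ℕ × Bool)), ∃ u : Set (L i), IsOpen u ∧
      ∀ᶠ x in residual (L i), (x ∈ t i ⁻¹' (PS V l) ↔ x ∈ u) := fun i l =>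
    analytic_baire (Cl.analytic c ht hc hinj (PS_cl c ht hc V hV l) i)
  choose u hu1 hu2 using hA
  have hPS : ∀ l x, x ∈ PS V l → x ∈ P := fun l x hx => by
    obtain ⟨l', _, h2, h3⟩ := PS_mem V l x hx
    exact (hP x).2 ⟨l', h2, h3⟩
  by_cases h : ∀ i, ∃ l, (u i l).Nonempty
  · left
    intro i
    obtain ⟨l, hl⟩ := h i
    filter_upwards [pettis (hu1 i l) (hu2 i l) hl] with g hg
    obtain ⟨x, hx, y, hy, rfl⟩ := hg
    rw [map_mul, map_inv]
    exact P.mul_mem (hPS l _ hx) (P.inv_mem (hPS l _ hy))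
  · right
    push Not at h
    obtain ⟨i, hi⟩ := h
    have h1 : ∀ᶠ x in residual (L i), ∀ l, (x ∈ t i ⁻¹' (PS V l) ↔ x ∈ u i l) :=
      eventually_countable_forall.2 (hu2 i)
    have h2 : IsMeagre (t i ⁻¹' (P : Set G)) := by
      change (t i ⁻¹' (P : Set G))ᶜ ∈ residual (L i)
      filter_upwards [h1] with x hx hxP
      obtain ⟨l', h3, h4⟩ := (hP (t i x)).1 hxP
      obtain ⟨l, hl⟩ := mem_PS V l' h3
      rw [h4] at hl
      have h5 := (hx l).1 hl
      rw [hi l] at h5
      exact h5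
    obtain ⟨h, hh⟩ := myc h2
    refine ⟨fun b => t i (h b), fun b b' hbb hmem => hh b b' hbb ?_⟩
    rw [mem_preimage, map_mul, map_inv]
    exact hmem

end

/-- the value of a word with constants -/
def val {G : Type} [Group G] (w : List (G ⊕ (ℕ × Bool))) (x : ℕ → G) : G :=
  (w.map fun a => match a with
    | Sum.inl g => g
    | Sum.inr (k, true) => x k
    | Sum.inr (k, false) => (x k)⁻¹).prod

/-- the subgroup generated by the values of a set of words -/
def verbal {G : Type} [Group G] (W : Set (List (G ⊕ (ℕ × Bool)))) : Subgroup G :=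
  Subgroup.closure {y | ∃ w ∈ W, ∃ x : ℕ → G, y = val w x}

theorem val_nil {G : Type} [Group G] (x : ℕ → G) : val [] x = 1 := rfl

theorem val_cons {G : Type} [Group G] (a : G ⊕ (ℕ × Bool)) (w : List (G ⊕ (ℕ × Bool)))
    (x : ℕ → G) : val (a :: w) x = val [a] x * val w x := by
  simp [val]

theorem val_congr {G : Type} [Group G] (w : List (G ⊕ (ℕ × Bool))) :
    ∃ N : ℕ, ∀ x x' : ℕ → G, (∀ k < N, x k = x' k) → val w x = val w x' := by
  induction w with
  | nil => exact ⟨0, fun _ _ _ => rfl⟩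
  | cons a w ih =>
    obtain ⟨N, hN⟩ := ih
    rcases a with g | ⟨k, b⟩
    · refine ⟨N, fun x x' h => ?_⟩
      rw [val_cons, val_cons _ _ x', hN x x' h]
      rfl
    · refine ⟨max N (k + 1), fun x x' h => ?_⟩
      rw [val_cons, val_cons _ _ x', hN x x' fun j hj => h j (lt_of_lt_of_le hj (le_max_left _ _))]
      have h1 := h k (lt_of_lt_of_le (Nat.lt_succ_self k) (le_max_right _ _))
      have h2 : val [Sum.inr (k, b)] x = val [Sum.inr (k, b)] x' := by
        cases b <;> simp [val, h1]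
      rw [h2]

end Pool.Agent.Q175.HW
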