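import Pool.Agent.Q175.HW.Ix

/-!
Verbal subgroups with constants of the group of Hamiltonian homeomorphisms.
-/

set_option autoImplicit false

open Set Filter Topology MeasureTheory Function

namespace Pool.Agent.Q175.HW

open Pool.Agent.Q175.HU
open Pool.Agent.Y453.HB

variable {n : ℕ}

/-- the value of a word is continuous on the Polish groups -/
theorem val_lift (w : List (HamBar n ⊕ (ℕ × Bool))) (i : KI n) :
    ∃ (j : KI n) (f : (ℕ → LG i.1) → LG j.1), i ≤ j ∧ Continuous f ∧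
      ∀ x, tt j (f x) = val w fun k => tt i (x k) := by
  induction w with
  | nil => exact ⟨i, fun _ => 1, le_rfl, continuous_const, fun x => map_one _⟩
  | cons a w ih =>
    obtain ⟨j, f, hij, hf, h⟩ := ih
    rcases a with g | ⟨k, b⟩
    · obtain ⟨j', p, hp⟩ := exists_tt g
      refine ⟨j' ⊔ j, fun x => ci j' (j' ⊔ j) le_sup_left p * ci j (j' ⊔ j) le_sup_right (f x),
        hij.trans le_sup_right, continuous_const.mul ((ci_cont _ _ _).comp hf), fun x => ?_⟩
      rw [map_mul, tt_ci, tt_ci, h, hp, val_cons (Sum.inl g)]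
      simp [val]
    · rcases b with _ | _
      · refine ⟨j, fun x => (ci i j hij (x k))⁻¹ * f x, hij,
          ((ci_cont _ _ _).comp (continuous_apply k)).inv.mul hf, fun x => ?_⟩
        rw [map_mul, map_inv, tt_ci, h, val_cons (Sum.inr (k, false))]
        simp [val]
      · refine ⟨j, fun x => ci i j hij (x k) * f x, hij,
          ((ci_cont _ _ _).comp (continuous_apply k)).mul hf, fun x => ?_⟩
        rw [map_mul, tt_ci, h, val_cons (Sum.inr (k, true))]
        simp [val]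

/-- the values of a word on one of the Polish groups -/
def VV (w : List (HamBar n ⊕ (ℕ × Bool))) (i : KI n) : Set (HamBar n) :=
  {y | ∃ x : ℕ → LG i.1, y = val w fun k => tt i (x k)}

theorem VV_cl (w : List (HamBar n ⊕ (ℕ × Bool))) (i : KI n) :
    Cl (fun i : KI n => LG i.1) tt (VV w i) := by
  obtain ⟨j, f, -, hf, h⟩ := val_lift w i
  refine ⟨j, range f, analyticSet_range_of_polishSpace hf, ?_⟩
  ext y
  constructor
  · rintro ⟨x, rfl⟩
    exact ⟨f x, ⟨x, rfl⟩, h x⟩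
  · rintro ⟨_, ⟨x, rfl⟩, rfl⟩
    exact ⟨x, h x⟩

theorem Bm_mono {m m' : ℕ} (h : m ≤ m') : Bm n m ≤ Bm n m' := by
  intro p hp
  have h1 : Q p ≤ 1 - 1 / ((m : ℝ) + 1) := hp
  have h2 : (1 : ℝ) / ((m' : ℝ) + 1) ≤ 1 / ((m : ℝ) + 1) := by
    have : (m : ℝ) ≤ m' := by exact_mod_cast h
    exact one_div_le_one_div_of_le (by positivity) (by linarith)
  change Q p ≤ 1 - 1 / ((m' : ℝ) + 1)
  linarith

/-- finitely many elements are in one of the Polish groups -/
theorem exists_common (x : ℕ → HamBar n) (N : ℕ) :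
    ∃ m, ∀ k < N, ∃ p : LG (Bm n m).1, tt (Bm n m) p = x k := by
  induction N with
  | zero => exact ⟨0, fun k hk => absurd hk (Nat.not_lt_zero _)⟩
  | succ N ih =>
    obtain ⟨m, hm⟩ := ih
    obtain ⟨i, p, hp⟩ := exists_tt (x N)
    obtain ⟨m', hm'⟩ := le_Bm i
    refine ⟨max m m', fun k hk => ?_⟩
    rcases Nat.lt_succ_iff_lt_or_eq.1 hk with h | h
    · obtain ⟨q, hq⟩ := hm k h
      exact ⟨ci _ _ (Bm_mono (le_max_left _ _)) q, by rw [tt_ci, hq]⟩
    · rw [h]
      exact ⟨ci i _ (hm'.trans (Bm_mono (le_max_right _ _))) p, by rw [tt_ci, hp]⟩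

theorem mem_VV (w : List (HamBar n ⊕ (ℕ × Bool))) (x : ℕ → HamBar n) :
    ∃ m, val w x ∈ VV w (Bm n m) := by
  classical
  obtain ⟨N, hN⟩ := val_congr w
  obtain ⟨m, hm⟩ := exists_common x N
  choose! p hp using hm
  exact ⟨m, p, hN _ _ fun k hk => (hp k hk).symm⟩

/-- the subgroup generated by countably many analytic sets is the whole group or has continuum many
cosets -/
theorem gen_dicho (V : ℕ → Set (HamBar n)) (hV : ∀ m, Cl (fun i : KI n => LG i.1) tt (V m)) :
    Subgroup.closure (⋃ m, V m) = ⊤ ∨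
      ∃ h : (ℕ → Bool) → HamBar n, ∀ b b', b ≠ b' → (h b)⁻¹ * h b' ∉ Subgroup.closure (⋃ m, V m) := by
  have hP : ∀ x, x ∈ Subgroup.closure (⋃ m, V m) ↔ ∃ l : List (HamBar n),
      (∀ y ∈ l, ∃ m, y ∈ V m ∨ y⁻¹ ∈ V m) ∧ l.prod = x := by
    intro x
    constructor
    · intro hx
      have hx' : x ∈ (Subgroup.closure (⋃ m, V m)).toSubmonoid := hx
      rw [Subgroup.closure_toSubmonoid] at hx'
      obtain ⟨l, h1, h2⟩ := Submonoid.exists_list_of_mem_closure hx'
      refine ⟨l, fun y hy => ?_, h2⟩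
      rcases h1 y hy with h | h
      · obtain ⟨m, hm⟩ := mem_iUnion.1 h
        exact ⟨m, Or.inl hm⟩
      · obtain ⟨m, hm⟩ := mem_iUnion.1 (Set.mem_inv.1 h)
        exact ⟨m, Or.inr hm⟩
    · rintro ⟨l, h1, rfl⟩
      refine Subgroup.list_prod_mem _ fun y hy => ?_
      obtain ⟨m, h | h⟩ := h1 y hy
      · exact Subgroup.subset_closure (mem_iUnion.2 ⟨m, h⟩)
      · exact (Subgroup.inv_mem_iff _).1 (Subgroup.subset_closure (mem_iUnion.2 ⟨m, h⟩))
  have : Nonempty (KI n) := ⟨Bm n 0⟩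
  rcases dicho (ι := KI n) (L := fun i : KI n => LG i.1) (t := tt) ci tt_ci ci_cont tt_inj V
    hV _ hP with h | h
  · left
    refine top_of_near _ fun r hr hr1 => near_of hr hr1 fun i => ?_
    obtain ⟨ε, hε, h2⟩ := nhds_one (h i)
    exact ⟨ε, hε, fun p hp => h2 p hp⟩
  · exact Or.inr h

/-- the subgroup generated by the values of countably many words with constants is the whole group or
has continuum many cosets -/
theorem verbal_dicho (W : Set (List (HamBar n ⊕ (ℕ × Bool)))) (hW : W.Countable) :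
    verbal W = ⊤ ∨ ∃ h : (ℕ → Bool) → HamBar n, ∀ b b', b ≠ b' → (h b)⁻¹ * h b' ∉ verbal W := by
  obtain ⟨e, he⟩ := (hW.insert []).exists_eq_range ⟨[], mem_insert _ _⟩
  let V : ℕ → Set (HamBar n) := fun k => VV (e k.unpair.1) (Bm n k.unpair.2)
  have hV2 : ∀ y, (∃ m, y ∈ V m) ↔ ∃ w ∈ insert [] W, ∃ x : ℕ → HamBar n, y = val w x := by
    intro y
    rw [he]
    constructor
    · rintro ⟨m, x, rfl⟩
      exact ⟨_, ⟨_, rfl⟩, _, rfl⟩
    · rintro ⟨_, ⟨a, rfl⟩, x, rfl⟩
      obtain ⟨m, hm⟩ := mem_VV (e a) x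
      refine ⟨Nat.pair a m, ?_⟩
      change _ ∈ VV (e (Nat.unpair (Nat.pair a m)).1) (Bm n (Nat.unpair (Nat.pair a m)).2)
      rw [Nat.unpair_pair]
      exact hm
  have hcl : verbal W = Subgroup.closure (⋃ m, V m) := by
    apply le_antisymm
    · rw [verbal, Subgroup.closure_le]
      rintro y ⟨w, hw, x, hy⟩
      exact Subgroup.subset_closure (mem_iUnion.2 ((hV2 y).2 ⟨w, mem_insert_of_mem _ hw, x, hy⟩))
    · rw [Subgroup.closure_le]
      intro y hy
      obtain ⟨w, hw, x, rfl⟩ := (hV2 y).1 (mem_iUnion.1 hy)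
      rcases hw with rfl | hw
      · exact Subgroup.one_mem _
      · exact Subgroup.subset_closure ⟨w, hw, x, rfl⟩
  rw [hcl]
  exact gen_dicho V fun m => VV_cl _ _

/-- the normal subgroup generated by the group of a smaller ball is the whole group or has continuum
many cosets -/
theorem frag_dicho {t : ℝ} (ht : 0 < t) (ht1 : t ≤ 1) :
    Subgroup.normalClosure (Hs n t : Set (HamBar n)) = ⊤ ∨
      ∃ h : (ℕ → Bool) → HamBar n, ∀ b b', b ≠ b' →
        (h b)⁻¹ * h b' ∉ Subgroup.normalClosure (Hs n t : Set (HamBar n)) := by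
  let V : ℕ → Set (HamBar n) := fun m => tt (Bm n m) ''
    (range fun q : LG (Bm n m).1 × LG (Bm n m).1 => q.1 * dl ht ht1 m q.2 * q.1⁻¹)
  have hV : ∀ m, Cl (fun i : KI n => LG i.1) tt (V m) := fun m =>
    ⟨_, _, analyticSet_range_of_polishSpace
      ((continuous_fst.mul ((dl_cont ht ht1 m).comp continuous_snd)).mul continuous_fst.inv), rfl⟩
  have h1 : Subgroup.normalClosure (Hs n t : Set (HamBar n)) = Subgroup.closure (⋃ m, V m) := by
    rw [Subgroup.normalClosure]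
    congr 1
    ext y
    rw [Group.mem_conjugatesOfSet_iff, mem_iUnion]
    constructor
    · rintro ⟨a, ⟨b, rfl⟩, ha⟩
      obtain ⟨g, rfl⟩ := isConj_iff.1 ha
      obtain ⟨i, g', rfl⟩ := exists_tt g
      obtain ⟨k, b', rfl⟩ := exists_tt b
      obtain ⟨m, hm⟩ := le_Bm (i ⊔ k)
      refine ⟨m, _, ⟨(ci i (Bm n m) (le_sup_left.trans hm) g',
        ci k (Bm n m) (le_sup_right.trans hm) b'), rfl⟩, ?_⟩
      rw [map_mul, map_mul, map_inv, tt_dl, tt_ci, tt_ci]
    · rintro ⟨m, _, ⟨q, rfl⟩, rfl⟩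
      refine ⟨tt _ (dl ht ht1 m q.2), ?_, ?_⟩
      · rw [tt_dl]
        exact ⟨_, rfl⟩
      · rw [isConj_iff]
        exact ⟨tt _ q.1, by rw [map_mul, map_mul, map_inv]⟩
  rw [h1]
  exact gen_dicho V hV

end Pool.Agent.Q175.HW
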